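import Mathlib
import Pool.Agent.Q84.TW4

/-! MP_1ad12f (Q1): a continuous bijection of `ℝ^d` preserves bandlimitedness iff it is affine. -/

set_option autoImplicit false
open MeasureTheory FourierTransform
open scoped SchwartzMap

namespace Pool.Agent.Results.MP_1ad12f_an.AffineWarp

section defs

variable {E : Type*} [NormedAddCommGroup E] [InnerProductSpace ℝ E] [FiniteDimensional ℝ E]
  [MeasurableSpace E] [BorelSpace E]

/-- the `L²` Fourier transform of `F` vanishes almost everywhere outside `K` -/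
def FTVanishesOff (F : Lp ℂ 2 (volume : Measure E)) (K : Set E) : Prop :=
  ∀ᵐ ξ, ξ ∉ K → (𝓕 F : Lp ℂ 2 (volume : Measure E)) ξ = 0

/-- `f` is (the continuous representative of) a bandlimited function: `f` is continuous and is
almost everywhere equal to some `F ∈ L²(E)` whose `L²` Fourier transform vanishes almost
everywhere outside some compact set `K` -/
def Bandlimited (f : E → ℂ) : Prop :=
  Continuous f ∧ ∃ F : Lp ℂ 2 (volume : Measure E), F =ᵐ[volume] f ∧
    ∃ K : Set E, IsCompact K ∧ FTVanishesOff F K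

/-- the distributional Fourier transform of `h`, i.e. `φ ↦ ∫ h(x) (𝓕 φ)(x) dx` on Schwartz
functions `φ`, vanishes on all `φ` whose support avoids some fixed compact set `K` -/
def HasCompactlySupportedFT (h : E → ℂ) : Prop :=
  ∃ K : Set E, IsCompact K ∧ ∀ φ : 𝓢(E, ℂ), tsupport φ ⊆ Kᶜ → ∫ x, h x * 𝓕 φ x = 0

/-- composition with `γ` maps bandlimited functions to functions with compactly supported
Fourier transform -/
def BandlimitPreserving (γ : E → E) : Prop :=
  ∀ f : E → ℂ, Bandlimited f → HasCompactlySupportedFT (fun x => f (γ x))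

end defs

/-- `ℝ^d` -/
abbrev Rd (d : ℕ) := EuclideanSpace ℝ (Fin d)

/-- A continuous map `γ` of `ℝ^d` is bandlimit-preserving iff `γ(x) = A x + b` with `A` linear;
a continuous bijection is bandlimit-preserving iff it is affine with invertible `A`. -/
theorem result (d : ℕ) (γ : Rd d → Rd d) (hγ : Continuous γ) :
    (Function.Bijective γ →
      (BandlimitPreserving γ ↔ ∃ (A : Rd d ≃ₗ[ℝ] Rd d) (b : Rd d), ∀ x, γ x = A x + b)) ∧
    (BandlimitPreserving γ ↔ ∃ (A : Rd d →ₗ[ℝ] Rd d) (b : Rd d), ∀ x, γ x = A x + b) := by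
  have hfwd : BandlimitPreserving γ → ∃ (A : Rd d →ₗ[ℝ] Rd d) (b : Rd d), ∀ x, γ x = A x + b := by
    intro h
    obtain ⟨A, hA⟩ := Q84.TW.exists_linear hγ h
    exact ⟨A, γ 0, hA⟩
  have hbwd : ∀ (A : Rd d →ₗ[ℝ] Rd d) (b : Rd d), (∀ x, γ x = A x + b) →
      BandlimitPreserving γ := by
    intro A b hA f hf
    have e : (fun x => f (γ x)) = fun x => f (A x + b) := by
      ext x
      rw [hA x]
    rw [e]
    exact Q84.TW.affine_preserves A b f hf
  refine ⟨fun hbij => ⟨fun h => ?_, ?_⟩, hfwd, ?_⟩
  · obtain ⟨A, b, hA⟩ := hfwd h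
    have hAb : Function.Bijective A := by
      constructor
      · intro x y hxy
        apply hbij.1
        rw [hA x, hA y, hxy]
      · intro y
        obtain ⟨x, hx⟩ := hbij.2 (y + b)
        refine ⟨x, ?_⟩
        rw [hA x] at hx
        exact add_right_cancel hx
    exact ⟨LinearEquiv.ofBijective A hAb, b, fun x => hA x⟩
  · rintro ⟨A, b, hA⟩
    exact hbwd A b hA
  · rintro ⟨A, b, hA⟩
    exact hbwd A b hA

end Pool.Agent.Results.MP_1ad12f_an.AffineWarp
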